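import Mathlib
import Pool.Agent.helper6.GO.Main

/-!
# MP_2e0e07_nt: geometric origin does not depend on `p` and is detected by one Frobenius eigenvalue

Let `Γ` be a topological group with sets `frob v` of Frobenius elements (for the question: the
absolute Galois group of the imaginary quadratic field `K`, `v` the primes of `K`). Let `P v` and
`Q v` be polynomials over a field `E`. Representations `V` (any dimension) and `ρ` (dimension two)
over a field `F` with an embedding `ι : E → F` are compatible with `P` and `Q` if outside a finite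
set of `v` their characteristic polynomials at the elements of `frob v` are `ι (P v)` and
`ι (Q v)`.

Theorem. Suppose that for ONE embedding `ι₀ : E → F₀` and one pair `V₀`, `ρ₀` of compatible
representations, `ρ₀` is a subquotient of `V₀`, or only: `ρ₀ s` and `V₀ s` have one common
eigenvalue for all `s` in `frob v`, `v ∈ S` outside a finite set, where `S` is a set of places
whose Frobenius elements outside any finite set are dense. Then for EVERY embedding `ι : E → F`
into an algebraically closed Hausdorff topological field of characteristic zero and every pair of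
continuous compatible representations `V`, `ρ`, with `ρ` irreducible, `ρ` is a subquotient of
`V ⊗ ⋯ ⊗ V ⊗ V^∨ ⊗ ⋯ ⊗ V^∨` for some numbers `a`, `b` of factors.

Use for the question. For `V = H^i(X, Q_p-bar)(j)`, `X` smooth projective over `K`, the
polynomials `P v` are rational and independent of `p` (Deligne), the tensor constructions of `V`
are direct summands of `H^m(X^(a+b), Q_p-bar)(j')` (Kuenneth formula and Poincare duality), and
the Frobenius elements of a set of primes of density one are dense (Chebotarev). So for a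
Bianchi newform `f`: if for one prime `p` the representation `ρ_(f,p)` arises from etale
cohomology, then so it does for all primes `p` and all conjugates of `f`; and for this it is
enough that for some `X`, `i`, `j` and a set of primes `v` of `K` of density one, one root of the
Hecke polynomial of `f` at `v` is an eigenvalue of Frobenius on `H^i(X)(j)`.

No semisimplicity is assumed. The proof (folder `Pool/Agent/helper6/GO`): the commutator
functions `tr ρ(g h g⁻¹ k)` and then all matrix coefficients of `ρ` are integral over the algebra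
`A` generated by the matrix coefficients of `V` and its dual; evaluation at `g` on `A` has only
one extension to `A[ρ]` (kernel lemma: if `a x`, `b x` have a common eigenvalue for all `x` in a
group and `b` is irreducible of dimension two then `ker a ≤ ker b`); a trace argument in
characteristic zero and the absence of translation-stable ideals in `A` give `A[ρ] = A`.
-/

namespace Pool.Agent.Results.MP_2e0e07_nt.CommonEigenvalue

open Matrix Polynomial Pool.Agent.GO

/-- The representation `V` over `F` is compatible with the polynomials `P v` over `E` along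
`ι : E → F`: for all places `v` outside a finite set and all Frobenius elements `s` at `v` the
characteristic polynomial of `V s` is the image of `P v`. -/
def Compatible {Γ Place E F d : Type*} [Group Γ] [Field E] [Field F] [Fintype d] [DecidableEq d]
    (frob : Place → Set Γ) (ι : E →+* F) (P : Place → E[X]) (V : Γ →* Matrix d d F) : Prop :=
  ∃ T : Set Place, T.Finite ∧ ∀ v ∉ T, ∀ s ∈ frob v, (V s).charpoly = (P v).map ι

theorem result {Γ Place E F₀ F : Type*} [Group Γ] [TopologicalSpace Γ] [Field E]
    (frob : Place → Set Γ) (P Q : Place → E[X])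
    -- the set of places at which a common eigenvalue is required
    (S : Set Place) (hS : ∀ T : Set Place, T.Finite → Dense (⋃ v ∈ S \ T, frob v))
    -- one pair of representations
    [Field F₀] [IsAlgClosed F₀] (ι₀ : E →+* F₀) {n₀ : ℕ}
    (V₀ : Γ →* Matrix (Fin n₀) (Fin n₀) F₀) (ρ₀ : Γ →* Matrix (Fin 2) (Fin 2) F₀)
    (hV₀ : Compatible frob ι₀ P V₀) (hρ₀ : Compatible frob ι₀ Q ρ₀)
    (h : IsSubquotient (fun g => ρ₀ g) (fun g => V₀ g) ∨
      ∃ T : Set Place, T.Finite ∧ ∀ v ∈ S \ T, ∀ s ∈ frob v, CommonEigenvalue (V₀ s) (ρ₀ s))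
    -- every other pair of representations
    [Field F] [IsAlgClosed F] [CharZero F] [TopologicalSpace F] [IsTopologicalRing F] [T2Space F]
    (ι : E →+* F) {n : ℕ}
    (V : Γ →* Matrix (Fin n) (Fin n) F) (ρ : Γ →* Matrix (Fin 2) (Fin 2) F)
    (hVcont : Continuous V) (hρcont : Continuous ρ)
    (hV : Compatible frob ι P V) (hρ : Compatible frob ι Q ρ)
    (hirr : Irred (fun g => ρ g)) :
    ∃ a b : ℕ, IsSubquotient (fun g => ρ g) (tens V a b) := by
  obtain ⟨T₁, hT₁, h₁⟩ := hV₀
  obtain ⟨T₂, hT₂, h₂⟩ := hρ₀
  obtain ⟨T₃, hT₃, h₃⟩ := hV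
  obtain ⟨T₄, hT₄, h₄⟩ := hρ
  have h0 : ∃ T : Set Place, T.Finite ∧ ∀ v ∈ S \ T, ∀ s ∈ frob v,
      CommonEigenvalue (V₀ s) (ρ₀ s) := by
    rcases h with h | h
    · refine ⟨∅, Set.finite_empty, fun v _ s _ => ?_⟩
      obtain ⟨μ, hμ⟩ := IsAlgClosed.exists_root (ρ₀ s).charpoly (by
        rw [Matrix.charpoly_degree_eq_dim]; simp)
      exact ⟨μ, root_of_subquot _ _ h s μ hμ, hμ⟩
    · exact h
  obtain ⟨T₅, hT₅, h₅⟩ := h0
  have hT : (T₁ ∪ T₂ ∪ T₃ ∪ T₄ ∪ T₅).Finite :=
    ((((hT₁.union hT₂).union hT₃).union hT₄).union hT₅)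
  refine criterion V hVcont ρ hρcont hirr (⋃ v ∈ S \ (T₁ ∪ T₂ ∪ T₃ ∪ T₄ ∪ T₅), frob v)
    (hS _ hT) ?_
  intro s hs
  simp only [Set.mem_iUnion] at hs
  obtain ⟨v, hv, hsv⟩ := hs
  have hv1 : v ∉ T₁ := fun hh => hv.2 (by simp [hh])
  have hv2 : v ∉ T₂ := fun hh => hv.2 (by simp [hh])
  have hv3 : v ∉ T₃ := fun hh => hv.2 (by simp [hh])
  have hv4 : v ∉ T₄ := fun hh => hv.2 (by simp [hh])
  have hv5 : v ∉ T₅ := fun hh => hv.2 (by simp [hh])
  obtain ⟨μ, e1, e2⟩ := h₅ v ⟨hv.1, hv5⟩ s hsv
  rw [h₁ v hv1 s hsv] at e1
  rw [h₂ v hv2 s hsv] at e2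
  have hnc := not_coprime_of_common_root ι₀ e1 e2
  have hP0 : P v ≠ 0 := by
    intro h0
    have := h₁ v hv1 s hsv
    rw [h0, Polynomial.map_zero] at this
    exact (Matrix.charpoly_monic (V₀ s)).ne_zero this
  obtain ⟨ν, f1, f2⟩ := common_root_transfer ι hP0 hnc
  exact ⟨ν, by rw [h₃ v hv3 s hsv]; exact f1, by rw [h₄ v hv4 s hsv]; exact f2⟩

end Pool.Agent.Results.MP_2e0e07_nt.CommonEigenvalue
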