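import Pool.Agent.helper64.NG.Thr

namespace Pool.Agent.Results.MP_069684_lc.NegationThreshold

open Pool.Agent.helper38.Neg Pool.Agent.helper55.NT Pool.Agent.LNB Pool.Agent.NG
open Pool.Agent.LN (TUP_all poly_tfae poly_growth')

/-- The threshold for the number of NOT gates, on every set of input bits (the first `u`), for P/Poly and
for NP/Poly.
(1) A function of `n` bits, monotone in the first `u` bits, with circuits of size `s` has circuits
of size `n ^ O(b) * s` in which at most `r` NOT gates depend on the first `u` bits, if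
`min u n + 1 ≤ b * 2 ^ r`.
(2) The reason, for `u = n`: on `b` consecutive levels it has NOT-free circuits of this size.
(3) At quasi-polynomial size the threshold is exact for P/Poly, for all functions `u`, `r`: it is
`min (u n) n ≤ c * (log n) ^ c * 2 ^ r n`; the same if (at most `r n` NOT gates which depend on the first `u n` bits) is
replaced by (at most `2 ^ r n` NOT-vectors along every increasing sequence of inputs which agree from
bit `u n` on), and for all languages of quasi-polynomial size.
(4) At polynomial size it is necessary that `min (u n) n ≤ c * (log n) ^ 20 * 2 ^ r n`.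
(5) For every `u` there is a language in P/Poly with monotone slices which needs exponential size in
circuits of NOT gates and arbitrary monotone gates with at most `m` inputs, if they have at most `K` NOT-vectors along
such sequences and `c * (log n) ^ 20 * (K * m) ≤ min (u n) n`; the constant `c` is the same for all `u`, `n`, `K`, `m`.
(6) If `min (u n) n ≤ c * (2 ^ r n + log n)`, then NP/Poly = P/Poly is the question for circuits in
which at most `r n` NOT gates depend on the first `u n` bits; it makes no difference whether one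
takes all languages monotone in the first `u n` bits, or the languages with monotone slices and
circuits with few NOT-vectors. For all `u`, `r` this fails unless `min (u n) n ≤ c * (log n) ^ 5 * 2 ^ r n`. -/
theorem result :
    (∀ (n s u b r : ℕ) (f : (Fin n → Bool) → Prop), min u n + 1 ≤ b * 2 ^ r → MonoIn u f →
      ∀ (C : Circuit n s) (o : Fin (n + s)), C.Computes o f →
        ∃ s' ≤ 18 * b * (s + 5 * n + 6) * (n + n + 2) ^ (b + 2) + n + 1,
          ∃ (C' : Circuit n s') (o' : Fin (n + s')), C'.Computes o' f ∧ FewDep u r C') ∧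
    (∀ (n s k b : ℕ) (f : (Fin n → Bool) → Prop), 1 ≤ b → Monotone f →
      ∀ (C : Circuit n s) (o : Fin (n + s)), C.Computes o f →
        ∃ s' ≤ 4 * b * (s + 1) * (n + 2) ^ (b + 2), ∃ (C' : Circuit n s') (o' : Fin (n + s')),
          C'.notCount = 0 ∧ (∀ x, k ≤ wt x → f x → C'.val x o' = true) ∧
            ∀ x, wt x < k + b → ¬ f x → C'.val x o' = false) ∧
    (∀ u r : ℕ → ℕ,
      [∃ c, ∀ n, min (u n) n ≤ c * lg n ^ c * 2 ^ r n,
        ∀ A, InQuasi A → (∀ n, MonoIn (u n) (A n)) → QuasiFew u r A,
        ∀ A, InPPoly A → (∀ n, Monotone (A n)) → QuasiPat u r A].TFAE) ∧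
    (∀ u r : ℕ → ℕ, (∀ A, InPPoly A → (∀ n, Monotone (A n)) → PolyPat u r A) →
      ∃ c, ∀ n, min (u n) n ≤ c * lg n ^ 20 * 2 ^ r n) ∧
    (∃ c : ℕ, ∀ u : ℕ → ℕ, ∃ A : Lang, InPPoly A ∧ (∀ n, Monotone (A n)) ∧
      ∀ (n s K m : ℕ) (C : MCircuit n s) (o : Fin (n + s)), 1 ≤ m → C.FanIn m →
        C.Computes o (A n) → C.LocPat (u n) K → c * lg n ^ 20 * (K * m) ≤ min (u n) n →
          (2 : ℝ) ^ ((((min (u n) n : ℕ) : ℝ) / ((K : ℝ) * m)) ^ (1 / 20 : ℝ)) ≤ s) ∧
    (∀ u r : ℕ → ℕ, (∃ c, ∀ n, min (u n) n ≤ c * (2 ^ r n + lg n)) →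
      [∀ A, InNPPoly A → InPPoly A,
        ∀ A, InNPPoly A → (∀ n, MonoIn (u n) (A n)) → PolyFew u r A,
        ∀ A, InNPPoly A → (∀ n, Monotone (A n)) → PolyPat u r A].TFAE) ∧
    ∀ u r : ℕ → ℕ, (∀ A, InNPPoly A → (∀ n, Monotone (A n)) → PolyPat u r A) →
      ∃ c, ∀ n, min (u n) n ≤ c * lg n ^ 5 * 2 ^ r n := by
  refine ⟨fun n s u b r f hb hf C o hC => ?_, fun n s k b f hb hf C o hC => window n s k b f hb hf C o hC,
    fun u r => quasi_tfae_P u r, fun u r h => poly_growth_P u r h,
    ⟨2 ^ 399, fun u => ⟨PA u, PA_poly u, PA_mono u,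
      fun n s K m C o hm hF hC hK h => PA_bound u n s K m C o hm hF hC hK h⟩⟩,
    fun u r hu => poly_tfae u r hu, fun u r h => poly_growth' u r h⟩
  have hb1 : 1 ≤ b := by
    rcases Nat.eq_zero_or_pos b with rfl | h
    · omega
    · exact h
  exact TUP_all n s u b r C o f hC hf hb1 hb

end Pool.Agent.Results.MP_069684_lc.NegationThreshold
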