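import Pool.Agent.helper91.ADV.Final2

namespace Pool.Agent.Results.MP_069684_lc.PredictionThreshold

open Pool.Agent.helper38.Neg Pool.Agent.helper55.NT Pool.Agent.LNB Pool.Agent.NG Pool.Agent.ADV
open Pool.Agent.LN (HC)

/-- `min (1/2) (K/(2(m+1)))`, where `m = min (u n) n`, `K = 2^(r n + 1) - 1`. -/
noncomputable def opt (u r : ℕ → ℕ) (n : ℕ) : ℝ :=
  min (1 / 2) (((2 : ℝ) ^ (r n + 1) - 1) / (2 * ((min (u n) n : ℕ) + 1)))

/-- Circuits of polynomial size have an advantage which is not smaller than an inverse polynomial. -/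
def Weak (A : Lang) : Prop :=
  ∃ q : Polynomial ℕ, PolyAdv Any (fun n => 1 / (((q.eval n : ℕ) : ℝ) + 2)) A

/-- How well can circuits with few NOT gates predict a language on the worst distribution? `Few u r`: at most
`r n` NOT gates depend on the first `u n` inputs; `Pat u K`: at most `K n` NOT-vectors along increasing inputs
which agree from bit `u n` on; `m = min (u n) n`; `adv`: the advantage of the circuit or its negation.
(1) For all `u`, `r`, P/Poly is the class of the languages which circuits of polynomial size in `Few u r` predict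
with advantage `min (1/2) ((2^(r+1)-1)/(2(m+1)))`, and also the class of those which circuits of polynomial size predict
with an inverse polynomial advantage.
(2) The constant is optimal: for the parity of the input bits and a suitable distribution no
circuit of NOT gates and arbitrary monotone gates, of any size, with at most `K` NOT-vectors, has an advantage
greater than `(2K-1)/(2(m+1))` (if `n` is odd and `u n ≥ n`: `(2K-1)/(2n)`).
(3) So NP/Poly = P/Poly is, for all `u`, `r`, the question for predictors in `Few u r` with this optimal advantage, and the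
question for the monotone languages and inverse polynomial advantage; the half clique language suffices.
(4) For monotone languages the threshold is the same up to powers of the logarithm, at quasi-polynomial size.
(5) This is unconditional and holds on one distribution for all circuits: a language of P/Poly with monotone slices, for
which the advantage is at most about `d t^20 K / m` until the size is about `2^t`; without NOT gates it
is at most `(s+1)/2^t`. -/
theorem result :
    (∀ (u r : ℕ → ℕ) (A : Lang), [InPPoly A, PolyAdv (Few u r) (opt u r) A, Weak A].TFAE) ∧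
    (InPPoly (fun n z => wt z % 2 = 0) ∧
      ∀ n u : ℕ, ∃ D : (Fin n → Bool) → ℝ, IsDist D ∧
        ∀ (s K : ℕ) (C : MCircuit n s) (o : Fin (n + s)), C.LocPat u K →
          adv D (fun z => wt z % 2 = 0) (fun z => C.val z o) ≤
            (2 * (K : ℝ) - 1) / (2 * ((if u < n then u + 1 else 2 * (n / 2) + 1 : ℕ) : ℝ))) ∧
    (∀ u r : ℕ → ℕ,
      [∀ A, InNPPoly A → InPPoly A,
        ∀ A, InNPPoly A → PolyAdv (Few u r) (opt u r) A,
        ∀ A, InNPPoly A → (∀ n, Monotone (A n)) → Weak A,
        PolyAdv (Few u r) (opt u r) HC,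
        Weak HC].TFAE) ∧
    (∀ (u r : ℕ → ℕ) (γ : ℕ → ℝ), (∀ n, γ n ≤ 1 / 2) →
      [∃ c : ℕ, ∀ n, γ n * (min (u n) n : ℕ) ≤ c * (lg n : ℝ) ^ c * 2 ^ r n,
        ∀ A, InQuasi A → (∀ n, MonoIn (u n) (A n)) → QuasiAdv (Few u r) γ A,
        ∀ A, InPPoly A → (∀ n, Monotone (A n)) → QuasiAdv (Pat u fun n => 2 ^ r n) γ A].TFAE) ∧
    ∃ c : ℕ, ∀ u : ℕ → ℕ, ∃ A : Lang, InPPoly A ∧ (∀ n, Monotone (A n)) ∧
      ∀ n t d : ℕ, lg n ≤ t → 1 ≤ d → c * t ^ 20 * d ≤ min (u n) n →
        ∃ D : (Fin n → Bool) → ℝ, IsDist D ∧
          ∀ (s K : ℕ) (C : MCircuit n s) (o : Fin (n + s)), C.FanIn d → C.LocPat (u n) K →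
            agr D (A n) (fun x => C.val x o) ≤
              1 / 2 + c * t ^ 20 * d * ((K : ℝ) - 1) / (min (u n) n : ℕ) + ((s : ℝ) + 1) / 2 ^ t ∧
            1 / 2 - (c * t ^ 20 * d * (K : ℝ) / (min (u n) n : ℕ) + ((s : ℝ) + 1) / 2 ^ t) ≤
              agr D (A n) (fun x => C.val x o) := by
  refine ⟨fun u r A => zTFX u r A, ⟨?_, fun n u => ?_⟩, fun u r => zQTX u r,
    fun u r γ h => zMQT' u r γ h, zLBT'⟩
  · have h := zPPO fun n => n
    have e : (fun (n : ℕ) (z : Fin n → Bool) => wtu n z % 2 = 0) = fun n z => wt z % 2 = 0 := by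
      funext n z
      rw [wtu_self]
    rw [← e]
    exact h
  · by_cases h : u < n
    · rw [if_pos h]
      obtain ⟨D, h1, h2⟩ := zPEX n u h
      refine ⟨D, h1, fun s K C o hC => ?_⟩
      have h3 := h2 s K C o hC
      push_cast
      exact h3
    · rw [if_neg h]
      obtain ⟨D, h1, h2⟩ := zPAM n u
      refine ⟨D, h1, fun s K C o hC => ?_⟩
      have h3 := h2 s K C o hC
      have e : (fun z : Fin n → Bool => wtu u z % 2 = 0) = fun z => wt z % 2 = 0 := by
        funext z
        rw [wtu_of_le (not_lt.1 h)]
      rw [e, min_eq_right (not_lt.1 h)] at h3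
      push_cast
      exact h3

end Pool.Agent.Results.MP_069684_lc.PredictionThreshold
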