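import Pool.Agent.helper74.SchTop

set_option autoImplicit false

/-!
# Sequence selection in `C_p(X)` versus selection of open gamma-covers of `X`

Under the continuum hypothesis there is a set `X` of irrationals such that

* `C_p(X)` satisfies `S_1(Gamma_0, Gamma_0)` (the sequence selection property), and
* `X` does not even satisfy `S_1(Gamma, O)`: there are open gamma-covers `𝒰 n` of `X` such that no
  choice `V n ∈ 𝒰 n` covers `X`.  In particular `X` fails `S_1(Gamma, Gamma)`.

Sketch.  Work in the Cantor space `2^ω`, to each coordinate `e` attach a pair `pos e ∈ ω × ω` such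
that each pair is attached to infinitely many coordinates, and let `F w` be the closed set of all
points vanishing on all coordinates attached to `w`.  `P2` is the set of points lying, for each `n`,
in finitely many sets `F (n, m)` only.  The set `X ⊆ P2` contains for each `h : ω → ω` a point of
`⋂ n, F (n, h n)`.  It is built by a recursion of length `ω_1` along a decreasing sequence of
conditions; a condition is a sequence of blocks of coordinates, with a set of allowed patterns on
each block, the `j`-th set being `N`-large for all large `j`, for every `N`.  The lemma `Cond.main`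
shows that if clopen sets `W_k` converge to the empty set pointwise on the points of `P2` allowed
by a condition, then for all large `k` the patterns avoiding `W_k` form an `N`-large set.
-/

namespace Pool.Agent.Results.MP_bfc607_gt.SelectionUnderCH

open Cardinal Pool.Agent.Scheepers

/-- Under CH, a family indexed by a type of size less than the continuum is countable. -/
theorem countable_of_lt (hCH : Cardinal.continuum.{0} = Cardinal.aleph.{0} 1) {κ : Type}
    (h : #κ < 𝔠) : Countable κ := by
  have h1 : #κ < Cardinal.aleph.{0} 1 := hCH ▸ h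
  exact Cardinal.mk_le_aleph0_iff.1 (Cardinal.lt_aleph_one_iff.1 h1)

theorem result (hCH : Cardinal.continuum.{0} = Cardinal.aleph.{0} 1) :
    ∃ X : Set ℝ, X ⊆ {x : ℝ | Irrational x} ∧
      (∀ A : ℕ → Set C(↥X, ℝ),
        (∀ n, (A n).Infinite ∧ (A n).Countable ∧ (0 : C(↥X, ℝ)) ∉ A n ∧
          ∀ x : ↥X, ∀ ε : ℝ, 0 < ε → {f ∈ A n | ε ≤ |f x|}.Finite) →
        ∃ g : ℕ → C(↥X, ℝ), (∀ n, g n ∈ A n) ∧ (Set.range g).Infinite ∧
          ∀ x : ↥X, ∀ ε : ℝ, 0 < ε → {f ∈ Set.range g | ε ≤ |f x|}.Finite) ∧
      ∃ 𝒰 : ℕ → Set (Set ↥X),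
        (∀ n, (𝒰 n).Infinite ∧ (∀ U ∈ 𝒰 n, IsOpen U) ∧ (Set.univ : Set ↥X) ∉ 𝒰 n ∧
          ∀ x : ↥X, {U ∈ 𝒰 n | x ∉ U}.Finite) ∧
        ∀ V : ℕ → Set ↥X, (∀ n, V n ∈ 𝒰 n) → (⋃ n, V n) ≠ Set.univ := by
  obtain ⟨X, h1, h2, h3⟩ := exists_set
    (fun κ p hκ hne hch => by
      have : Countable κ := countable_of_lt hCH hκ
      exact Cond.exists_lower_chain p hch)
    (fun κ p V b hκ hV hconv c hc => by
      have : Countable κ := countable_of_lt hCH hκ
      rcases isEmpty_or_nonempty κ with he | hne
      · -- no side points: add any eventually good point as a dummy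
        obtain ⟨x, hx1, hx2, -⟩ := p.exists_point (fun _ => 0)
        obtain ⟨q, hq, s, hs1, -⟩ := p.fusion V b hV hconv (fun _ => x)
          (fun _ n => hconv n x hx1 hx2)
        exact ⟨q, hq, s, hs1, fun i => (he.false i).elim⟩
      · obtain ⟨g, hg⟩ := exists_surjective_nat κ
        obtain ⟨q, hq, s, hs1, hs2⟩ := p.fusion V b hV hconv (fun i => c (g i))
          (fun i n => hc (g i) n)
        refine ⟨q, hq, s, hs1, fun i => ?_⟩
        obtain ⟨m, rfl⟩ := hg i
        exact hs2 m)
  exact transfer X h1 h2 h3

end Pool.Agent.Results.MP_bfc607_gt.SelectionUnderCH
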